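import Pool.Agent.H10.ALG.Targets

/-!
# MP_64fb07_lc, board `alg_modules`, rows KIN and ORC
-/

set_option autoImplicit false

namespace Pool.Agent.H10.ALG

theorem rep_cancel : ∀ (k k' : ℕ) (l l' : List Bool),
    List.replicate k true ++ (false :: l) = List.replicate k' true ++ (false :: l') →
    k = k' ∧ l = l' := by
  intro k
  induction k with
  | zero =>
    intro k' l l' h
    cases k' with
    | zero => simpa using h
    | succ k' => simp [List.replicate_succ] at h
  | succ k ih =>
    intro k' l l' h
    cases k' with
    | zero => simp [List.replicate_succ] at h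
    | succ k' =>
      simp only [List.replicate_succ, List.cons_append, List.cons.injEq, true_and] at h
      obtain ⟨h1, h2⟩ := ih k' l l' h
      exact ⟨by rw [h1], h2⟩

theorem pf_KIN : T_KIN := by
  intro g j j' x x' h
  unfold key at h
  have h1 := List.cons.inj h
  obtain ⟨_, h2⟩ := rep_cancel _ _ _ _ h1.2
  exact rep_cancel _ _ _ _ h2

theorem pf_ORC (hKIN : T_KIN) : T_ORC := by
  intro g F hF C
  classical
  -- one step
  let nx : Orc → Orc := fun A z =>
    match z with
    | [] => false
    | false :: z' => C z'
    | true :: z' => decide (∃ j x, enc g j x ∧ true :: z' = key g j x ∧ F j x A)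
  let A : ℕ → Orc := fun k => Nat.rec (fun _ => false) (fun _ A => nx A) k
  have hA : ∀ k, A (k + 1) = nx (A k) := fun k => rfl
  have hnx : ∀ (B B' : Orc) (z : List Bool), (∀ w : List Bool, w.length < z.length → B w = B' w) →
      nx B z = nx B' z := by
    intro B B' z h
    match z, h with
    | [], _ => rfl
    | false :: z', _ => rfl
    | true :: z', h =>
      show decide (∃ j x, enc g j x ∧ true :: z' = key g j x ∧ F j x B) =
        decide (∃ j x, enc g j x ∧ true :: z' = key g j x ∧ F j x B')
      apply decide_eq_decide.2
      have h3 : ∀ j x, enc g j x → true :: z' = key g j x → (F j x B ↔ F j x B') := by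
        intro j x he hz
        apply hF
        intro w hw
        apply h
        rw [hz]
        exact lt_of_le_of_lt hw he.1
      constructor
      · rintro ⟨j, x, he, hz, hf⟩
        exact ⟨j, x, he, hz, (h3 j x he hz).1 hf⟩
      · rintro ⟨j, x, he, hz, hf⟩
        exact ⟨j, x, he, hz, (h3 j x he hz).2 hf⟩
  have hst : ∀ k d (z : List Bool), z.length < k → A (k + d) z = A k z := by
    intro k
    induction k with
    | zero => intro d z hz; omega
    | succ k ih =>
      intro d z hz
      have h1 : k + 1 + d = (k + d) + 1 := by omega
      rw [h1, hA, hA]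
      apply hnx
      intro w hw
      exact ih d w (by omega)
  let O : Orc := fun z => A (z.length + 1) z
  have hO : ∀ k (z : List Bool), z.length < k → O z = A k z := by
    intro k z hz
    obtain ⟨d, hd⟩ := Nat.exists_eq_add_of_le (Nat.succ_le_of_lt hz)
    rw [hd]
    exact (hst (z.length + 1) d z (by omega)).symm
  have hfix : ∀ z, O z = nx O z := by
    intro z
    rw [hO (z.length + 1) z (by omega), hA]
    apply hnx
    intro w hw
    exact (hO z.length w hw).symm
  refine ⟨O, ?_, ?_, ?_⟩
  · intro z
    exact hfix (false :: z)
  · intro j x he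
    have hk : ∃ z', key g j x = true :: z' := ⟨_, rfl⟩
    obtain ⟨z', hz'⟩ := hk
    rw [hz', (hfix (true :: z') : O (true :: z') = nx O (true :: z'))]
    show decide (∃ j x, enc g j x ∧ true :: z' = key g j x ∧ F j x O) = true ↔ F j x O
    rw [decide_eq_true_iff]
    constructor
    · rintro ⟨j', x', _, hz, hf⟩
      obtain ⟨rfl, rfl⟩ := hKIN g j j' x x' (hz'.trans hz)
      exact hf
    · intro hf
      exact ⟨j, x, he, hz'.symm, hf⟩
  · intro z h1 h2
    refine (hfix z).trans ?_
    match z, h1, h2 with
    | [], _, _ => rfl
    | false :: z', _, h2 => exact absurd rfl (h2 z')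
    | true :: z', h1, _ =>
      show decide (∃ j x, enc g j x ∧ true :: z' = key g j x ∧ F j x O) = false
      rw [decide_eq_false_iff_not]
      rintro ⟨j, x, he, hz, _⟩
      exact h1 j x he hz

end Pool.Agent.H10.ALG
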