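import Pool.Agent.H10.ALG.Targets

/-!
# MP_64fb07_lc, board `alg_modules`, row LIM: the limit of the stages
-/

set_option autoImplicit false

namespace Pool.Agent.H10.ALG

open Filter

theorem pf_LIM : T_LIM := by
  intro P c hc hst
  classical
  -- states
  let St := {s : ℕ × (List Bool → Bool) // (∀ z : List Bool, s.1 < z.length + 1 → s.2 z = false) ∧
    UC s.2}
  have hstep : ∀ (j : ℕ) (s : St), ∃ (n : ℕ) (t : St), s.1.1 ≤ n ∧ t.1.1 = c j n ∧
      (∀ z : List Bool, z.length + 1 ≤ s.1.1 → t.1.2 z = s.1.2 z) ∧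
      ∀ C'' : List Bool → Bool, (∀ z : List Bool, z.length + 1 ≤ c j n → C'' z = t.1.2 z) →
        P j n C'' := by
    intro j s
    obtain ⟨n, C', h1, h2, h3, h4, h5⟩ := hst j s.1.1 s.1.2 s.2.1 s.2.2
    exact ⟨n, ⟨(c j n, C'), h3, h4⟩, h1, rfl, h2, h5⟩
  choose nn st h1 h2 h3 h4 using hstep
  let s0 : St := ⟨(0, fun _ => false), fun _ _ => rfl, fun x y y' _ _ h _ _ _ => by
    simp at h⟩
  let job : ℕ → ℕ := fun k => (Nat.unpair k).1
  let S : ℕ → St := fun k => Nat.rec s0 (fun k s => st (job k) s) k
  have hS : ∀ k, S (k + 1) = st (job k) (S k) := fun k => rfl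
  have hN : ∀ k, (S k).1.1 ≤ nn (job k) (S k) := fun k => h1 _ _
  have hN1 : ∀ k, (S (k + 1)).1.1 = c (job k) (nn (job k) (S k)) := fun k => by
    rw [hS, h2]
  have hlt : ∀ k, (S k).1.1 < (S (k + 1)).1.1 := fun k => by
    rw [hN1]
    exact lt_of_le_of_lt (hN k) (hc _ _)
  have hmono : StrictMono fun k => (S k).1.1 := strictMono_nat_of_lt_succ hlt
  have hge : ∀ k, k ≤ (S k).1.1 := fun k => hmono.le_apply (x := k)
  have hagr : ∀ k d (z : List Bool), z.length + 1 ≤ (S k).1.1 → (S (k + d)).1.2 z = (S k).1.2 z := by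
    intro k d z hz
    induction d with
    | zero => rfl
    | succ d ih =>
      have h5 : (S k).1.1 ≤ (S (k + d)).1.1 := hmono.monotone (Nat.le_add_right k d)
      have h6 : S (k + (d + 1)) = st (job (k + d)) (S (k + d)) := hS (k + d)
      rw [h6, h3 _ _ z (by omega), ih]
  let C : List Bool → Bool := fun z => (S (z.length + 1)).1.2 z
  have hC : ∀ k (z : List Bool), z.length + 1 ≤ (S k).1.1 → C z = (S k).1.2 z := by
    intro k z hz
    show (S (z.length + 1)).1.2 z = (S k).1.2 z
    rcases le_total k (z.length + 1) with h | h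
    · obtain ⟨d, hd⟩ := Nat.exists_eq_add_of_le h
      rw [hd]
      exact hagr k d z hz
    · obtain ⟨d, hd⟩ := Nat.exists_eq_add_of_le h
      rw [hd]
      exact (hagr (z.length + 1) d z (hge _)).symm
  refine ⟨C, ?_, ?_⟩
  · intro x y y' e1 e2 a1 a2 a3 a4
    let k := x.length + y.length + y'.length + 2
    have hk := hge k
    have l1 : (false :: (x ++ y)).length + 1 ≤ (S k).1.1 := by
      simp only [List.length_cons, List.length_append]
      omega
    have l2 : (true :: (x ++ y)).length + 1 ≤ (S k).1.1 := by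
      simp only [List.length_cons, List.length_append]
      omega
    have l3 : (false :: (x ++ y')).length + 1 ≤ (S k).1.1 := by
      simp only [List.length_cons, List.length_append]
      omega
    have l4 : (true :: (x ++ y')).length + 1 ≤ (S k).1.1 := by
      simp only [List.length_cons, List.length_append]
      omega
    rw [hC k _ l1] at a1
    rw [hC k _ l2] at a2
    rw [hC k _ l3] at a3
    rw [hC k _ l4] at a4
    exact (S k).2.2 x y y' e1 e2 a1 a2 a3 a4
  · intro j
    rw [frequently_atTop]
    intro N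
    let k := Nat.pair j N
    have hj : job k = j := by
      show (Nat.unpair (Nat.pair j N)).1 = j
      rw [Nat.unpair_pair]
    have hkN : N ≤ k := Nat.right_le_pair j N
    refine ⟨nn (job k) (S k), ?_, ?_⟩
    · exact hkN.trans ((hge k).trans (hN k))
    · have h5 := h4 (job k) (S k) C (fun z hz => by
        have h6 := hC (k + 1) z (by rw [hN1]; exact hz)
        rw [h6, hS])
      rw [hj] at h5 ⊢
      exact h5

end Pool.Agent.H10.ALG
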