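import Pool.Agent.H10.ALG.Targets

/-!
# MP_64fb07_lc, board `alg_modules`, rows LNG and AGR
-/

set_option autoImplicit false

namespace Pool.Agent.H10.ALG

theorem ofFn_append_inj {n m : ℕ} {x x' : Fin n → Bool} {y : List Bool} {y' : Fin m → Bool}
    (h : List.ofFn x ++ y = List.ofFn x' ++ List.ofFn y') : x = x' ∧ y = List.ofFn y' := by
  have h1 := List.append_inj h (by rw [List.length_ofFn, List.length_ofFn])
  exact ⟨List.ofFn_injective h1.1, h1.2⟩

theorem wit_put (n : ℕ) (O : Orc) (S : Cf (In n) (Wi n)) (x : In n) (y : List Bool) :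
    Wit (put n O S) (List.ofFn x) y ↔
      ∃ u : Wi n, y = List.ofFn u ∧ u ∈ (S x).1 ∧ u ∈ (S x).2 := by
  classical
  unfold Wit
  rw [List.length_ofFn]
  have hval : ∀ b : Bool, y.length = 2 ^ n →
      (put n O S (false :: b :: (List.ofFn x ++ y)) = true ↔
        ∃ u : Wi n, y = List.ofFn u ∧ u ∈ (if b then (S x).2 else (S x).1)) := by
    intro b hy
    unfold put
    rw [if_pos ⟨by simp only [List.length_cons, List.length_append, List.length_ofFn, hy, lev],
      by simp⟩]
    unfold blkv
    rw [decide_eq_true_iff]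
    have ht : (false :: b :: (List.ofFn x ++ y)).tail = b :: (List.ofFn x ++ y) := rfl
    rw [ht]
    constructor
    · rintro ⟨x', u, h | h⟩
      · obtain ⟨h1, h2⟩ := h
        have h3 := List.cons.inj h1
        obtain ⟨h4, h5⟩ := ofFn_append_inj h3.2
        refine ⟨u, h5, ?_⟩
        rw [h3.1, h4]
        simpa using h2
      · obtain ⟨h1, h2⟩ := h
        have h3 := List.cons.inj h1
        obtain ⟨h4, h5⟩ := ofFn_append_inj h3.2
        refine ⟨u, h5, ?_⟩
        rw [h3.1, h4]
        simpa using h2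
    · rintro ⟨u, hu, hm⟩
      refine ⟨x, u, ?_⟩
      cases b with
      | false => exact Or.inl ⟨by rw [hu], by simpa using hm⟩
      | true => exact Or.inr ⟨by rw [hu], by simpa using hm⟩
  constructor
  · rintro ⟨h1, h2, h3⟩
    rw [hval false h1] at h2
    rw [hval true h1] at h3
    obtain ⟨u, hu, hm⟩ := h2
    obtain ⟨u', hu', hm'⟩ := h3
    have : u = u' := List.ofFn_injective (hu.symm.trans hu')
    subst this
    exact ⟨u, hu, by simpa using hm, by simpa using hm'⟩
  · rintro ⟨u, hu, hm, hm'⟩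
    have h1 : y.length = 2 ^ n := by rw [hu, List.length_ofFn]
    exact ⟨h1, (hval false h1).2 ⟨u, hu, by simpa using hm⟩,
      (hval true h1).2 ⟨u, hu, by simpa using hm'⟩⟩

theorem pf_LNG : T_LNG := by
  intro n O S x
  constructor
  · unfold lang
    rw [Finset.not_disjoint_iff]
    constructor
    · rintro ⟨y, hy⟩
      rw [wit_put] at hy
      obtain ⟨u, _, h1, h2⟩ := hy
      exact ⟨u, h1, h2⟩
    · rintro ⟨u, h1, h2⟩
      exact ⟨List.ofFn u, (wit_put n O S x _).2 ⟨u, rfl, h1, h2⟩⟩
  · intro hS y y' h h'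
    rw [wit_put] at h h'
    obtain ⟨u, hu, h1, h2⟩ := h
    obtain ⟨u', hu', h1', h2'⟩ := h'
    rcases hS x with hd | hc
    · exact absurd h2 (Finset.disjoint_left.1 hd h1)
    · obtain ⟨v, hv⟩ := Finset.card_eq_one.1 hc
      have e1 : u ∈ (S x).1 ∩ (S x).2 := Finset.mem_inter.2 ⟨h1, h2⟩
      have e2 : u' ∈ (S x).1 ∩ (S x).2 := Finset.mem_inter.2 ⟨h1', h2'⟩
      rw [hv, Finset.mem_singleton] at e1 e2
      rw [hu, hu', e1, e2]

theorem agr_out (T : ℕ) (O O' : Orc) (h : Agr T O O') : ∀ (d : ℕ) (t : Tree), t.Bd T d →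
    t.out O = t.out O' := by
  intro d
  induction d with
  | zero =>
    intro t ht
    cases t with
    | leaf b => rw [Tree.out_leaf, Tree.out_leaf]
    | node q next => exact absurd ht (Tree.Bd_zero T q next)
  | succ d ih =>
    intro t ht
    cases t with
    | leaf b => rw [Tree.out_leaf, Tree.out_leaf]
    | node q next =>
      rw [Tree.Bd_succ] at ht
      have hv : q.val O = q.val O' := by
        unfold Qn.val
        apply Finset.sum_congr rfl
        intro z _
        rw [h (List.ofFn z) (by rw [List.length_ofFn]; exact ht.1)]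
      rw [Tree.out_node, Tree.out_node, hv]
      exact ih _ (ht.2.2 _)

theorem agr_lang (n : ℕ) (O O' : Orc) (h : ∀ z : List Bool, z.length = lev n → O z = O' z)
    (x : List Bool) (hx : x.length = n) : lang O x ↔ lang O' x := by
  have h1 : ∀ y, Wit O x y ↔ Wit O' x y := by
    intro y
    unfold Wit
    constructor
    · rintro ⟨a, b, c⟩
      refine ⟨a, ?_, ?_⟩
      · rw [← h _ (by simp only [List.length_cons, List.length_append, hx, a, lev])]
        exact b
      · rw [← h _ (by simp only [List.length_cons, List.length_append, hx, a, lev])]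
        exact c
    · rintro ⟨a, b, c⟩
      refine ⟨a, ?_, ?_⟩
      · rw [h _ (by simp only [List.length_cons, List.length_append, hx, a, lev])]
        exact b
      · rw [h _ (by simp only [List.length_cons, List.length_append, hx, a, lev])]
        exact c
  unfold lang
  constructor
  · rintro ⟨y, hy⟩
    exact ⟨y, (h1 y).1 hy⟩
  · rintro ⟨y, hy⟩
    exact ⟨y, (h1 y).2 hy⟩

theorem lev_le_cost (j n : ℕ) : lev n ≤ cost j n := by
  unfold lev cost
  have h1 : 2 ^ (2 * (n + 1)) ≤ 2 ^ ((j + 2) * (n + 1)) :=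
    Nat.pow_le_pow_right (by norm_num) (Nat.mul_le_mul_right _ (by omega))
  have h2 : n < 2 ^ n := Nat.lt_two_pow_self
  have h3 : 2 ^ (2 * (n + 1)) = 4 * (2 ^ n * 2 ^ n) := by
    rw [← pow_add, show 2 * (n + 1) = 2 + (n + n) by ring, pow_add]
    norm_num
  have h4 : 1 ≤ 2 ^ n := Nat.one_le_two_pow
  have h5 : 2 ^ n ≤ 2 ^ n * 2 ^ n := Nat.le_mul_of_pos_right _ (by omega)
  omega

theorem pf_AGR : T_AGR := by
  refine ⟨fun T d O O' t ht h => agr_out T O O' h d t ht, agr_lang, lev_le_cost, ?_⟩
  intro V j n O O' hV hA a hD x hx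
  have hl : lang O x ↔ lang O' x :=
    agr_lang n O O' (fun z hz => hA z (by rw [hz]; exact lev_le_cost j n)) x hx
  have hacc : ∀ w : List Bool, accs V O (cost j n) a x w = accs V O' (cost j n) a x w := by
    intro w
    unfold accs
    congr 1
    apply Finset.filter_congr
    intro r _
    rw [agr_out _ O O' hA _ _ (hV a x w (List.ofFn r) hx)]
  obtain ⟨h1, h2⟩ := hD x hx
  constructor
  · intro hx'
    obtain ⟨w, hw⟩ := h1 (fun h => hx' (hl.1 h))
    exact ⟨w, by rw [← hacc]; exact hw⟩
  · intro hx' w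
    rw [← hacc]
    exact h2 (fun h => hx' (fun h3 => h (hl.2 h3))) w

end Pool.Agent.H10.ALG
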