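import Pool.Agent.H10.ALG.Targets

/-!
# MP_64fb07_lc, board `alg_modules`, row TRE: decision trees are combinations of rectangles
-/

set_option autoImplicit false

namespace Pool.Agent.H10.ALG

theorem pf_TRE (hVAL : T_VAL) (hSMP : T_SMP) : T_TRE := by
  intro n T d O
  classical
  obtain ⟨s1, s0, sR, sA, sM, sC, sS, sMono, sP⟩ := hSMP (In n) (Wi n)
  have hone : ∀ k : ℕ, (1 : ℝ) ≤ 2 ^ k := fun k => one_le_pow₀ (by norm_num)
  have hleaf : ∀ (k : ℕ) (b : Bool) ,
      Simp (2 ^ k) (fun S : Cf (In n) (Wi n) =>
        if (Tree.leaf b).out (put n O S) = true then (1 : ℝ) else 0) ∧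
      Simp (2 ^ k) (fun S : Cf (In n) (Wi n) =>
        if (Tree.leaf b).out (put n O S) = true then (0 : ℝ) else 1) := by
    intro k b
    have e1 : ∀ S : Cf (In n) (Wi n), (Tree.leaf b).out (put n O S) = b := fun S =>
      Tree.out_leaf _ _
    simp only [e1]
    cases b with
    | false =>
      exact ⟨by simpa using sMono 0 (2 ^ k) _ (le_trans zero_le_one (hone k)) s0,
        by simpa using sMono 1 (2 ^ k) _ (hone k) s1⟩
    | true =>
      exact ⟨by simpa using sMono 1 (2 ^ k) _ (hone k) s1,
        by simpa using sMono 0 (2 ^ k) _ (le_trans zero_le_one (hone k)) s0⟩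
  induction d with
  | zero =>
    intro t ht
    cases t with
    | leaf b => exact hleaf _ b
    | node q next => exact absurd ht (Tree.Bd_zero T q next)
  | succ d ih =>
    intro t ht
    cases t with
    | leaf b => exact hleaf _ b
    | node q next =>
      rw [Tree.Bd_succ] at ht
      obtain ⟨_, hcard, hnext⟩ := ht
      obtain ⟨a, b, hab⟩ := hVAL n O q
      -- general step
      have hgen : ∀ φ : q.G → Cf (In n) (Wi n) → ℝ, (∀ v, Simp (2 ^ (2 * T * d)) (φ v)) →
          Simp (2 ^ (2 * T * (d + 1))) (fun S => φ (q.val (put n O S)) S) := by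
        intro φ hφ
        have hrect : ∀ uv : q.G × q.G, Simp 1 (fun S : Cf (In n) (Wi n) =>
            if a (fun x => (S x).1) = uv.1 ∧ b (fun x => (S x).2) = uv.2 then (1 : ℝ) else 0) := by
          intro uv
          refine sR (fun A => a A = uv.1) (fun A => b A = uv.2) _ (fun S => ⟨?_, ?_⟩)
          · intro h
            rw [if_pos h]
          · intro h
            rw [if_neg h]
        have h1 : ∀ uv ∈ (Finset.univ : Finset (q.G × q.G)),
            Simp (1 * 2 ^ (2 * T * d)) (fun S : Cf (In n) (Wi n) =>
              (if a (fun x => (S x).1) = uv.1 ∧ b (fun x => (S x).2) = uv.2 then (1 : ℝ) else 0) *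
                φ (uv.1 + uv.2) S) := fun uv _ =>
          sM _ _ _ _ (hrect uv) (hφ _)
        have h2 := sS (q.G × q.G) Finset.univ _ _ h1
        have h3 : (fun S : Cf (In n) (Wi n) => ∑ uv ∈ (Finset.univ : Finset (q.G × q.G)),
            (if a (fun x => (S x).1) = uv.1 ∧ b (fun x => (S x).2) = uv.2 then (1 : ℝ) else 0) *
              φ (uv.1 + uv.2) S) = fun S => φ (q.val (put n O S)) S := by
          funext S
          rw [Finset.sum_eq_single (a (fun x => (S x).1), b (fun x => (S x).2))]
          · rw [if_pos ⟨rfl, rfl⟩, one_mul, hab S]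
          · intro uv _ hne
            rw [if_neg, zero_mul]
            rintro ⟨e1, e2⟩
            exact hne (Prod.ext e1.symm e2.symm)
          · intro h
            exact absurd (Finset.mem_univ _) h
        rw [h3] at h2
        refine sMono _ _ _ ?_ h2
        rw [Finset.sum_const, Finset.card_univ, Fintype.card_prod, nsmul_eq_mul, one_mul]
        have h4 : ((Fintype.card q.G : ℕ) : ℝ) ≤ 2 ^ T := by
          exact_mod_cast hcard
        have h5 : (((Fintype.card q.G * Fintype.card q.G : ℕ)) : ℝ) ≤ 2 ^ T * 2 ^ T := by
          push_cast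
          exact mul_le_mul h4 h4 (by positivity) (by positivity)
        calc (((Fintype.card q.G * Fintype.card q.G : ℕ)) : ℝ) * 2 ^ (2 * T * d)
            ≤ (2 ^ T * 2 ^ T) * 2 ^ (2 * T * d) := mul_le_mul_of_nonneg_right h5 (by positivity)
          _ = 2 ^ (2 * T * (d + 1)) := by
            rw [← pow_add, ← pow_add]
            congr 1
            ring
      have ho : ∀ S : Cf (In n) (Wi n), (Tree.node q next).out (put n O S) =
          (next (q.val (put n O S))).out (put n O S) := fun S => Tree.out_node _ _ _
      constructor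
      · have h1 := hgen (fun v S => if (next v).out (put n O S) = true then (1 : ℝ) else 0)
          (fun v => (ih (next v) (hnext v)).1)
        simpa only [ho] using h1
      · have h1 := hgen (fun v S => if (next v).out (put n O S) = true then (0 : ℝ) else 1)
          (fun v => (ih (next v) (hnext v)).2)
        simpa only [ho] using h1

end Pool.Agent.H10.ALG
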