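import Pool.Agent.H10.ALG.Targets

/-!
# MP_64fb07_lc, board `alg_modules`, rows UNI and PUT
-/

set_option autoImplicit false

namespace Pool.Agent.H10.ALG

theorem pf_UNI : T_UNI := by
  intro g F hF C C' O O' T hO hO' hC
  have key1 : ∀ (m : ℕ) (z : List Bool), z.length = m → z.length ≤ T → O z = O' z := by
    intro m
    induction m using Nat.strong_induction_on with
    | _ m ih =>
      intro z hz hzT
      by_cases h1 : ∃ z', z = false :: z'
      · obtain ⟨z', rfl⟩ := h1
        rw [hO.1, hO'.1]
        exact hC z' (by simpa using hzT)
      by_cases h2 : ∃ j x, enc g j x ∧ z = key g j x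
      · obtain ⟨j, x, he, rfl⟩ := h2
        have h3 : F j x O ↔ F j x O' := by
          apply hF
          intro w hw
          have h4 : w.length < (key g j x).length := lt_of_le_of_lt hw he.1
          exact ih w.length (by omega) w rfl (by omega)
        have h5 : O (key g j x) = true ↔ O' (key g j x) = true := by
          rw [hO.2.1 j x he, hO'.2.1 j x he, h3]
        exact Bool.eq_iff_iff.2 h5
      · push Not at h1 h2
        rw [hO.2.2 z h2 h1, hO'.2.2 z h2 h1]
  intro z hz
  exact key1 z.length z rfl hz

theorem pf_PUT : T_PUT := by
  intro g F hF n T hk C C' O O' S hO hO' hC hS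
  have hput : ∀ z : List Bool, z.length ≠ lev n → put n O S z = O z := by
    intro z hz
    unfold put
    rw [if_neg]
    exact fun h => hz h.1
  have hput2 : ∀ z : List Bool, z.head? ≠ some false → put n O S z = O z := by
    intro z hz
    unfold put
    rw [if_neg]
    exact fun h => hz h.2
  have key1 : ∀ (m : ℕ) (z : List Bool), z.length = m → z.length ≤ T →
      O' z = put n O S z := by
    intro m
    induction m using Nat.strong_induction_on with
    | _ m ih =>
      intro z hz hzT
      by_cases h1 : ∃ z', z = false :: z'
      · obtain ⟨z', rfl⟩ := h1
        have hl : (false :: z').length = z'.length + 1 := List.length_cons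
        rw [hO'.1]
        by_cases h2 : z'.length + 1 = lev n
        · rw [hS z' h2]
          unfold put
          rw [if_pos ⟨by rw [hl]; exact h2, by simp⟩]
          simp
        · rw [hC z' (by rw [← hl]; exact hzT) h2, hput _ (by rw [hl]; exact h2), hO.1]
      by_cases h2 : ∃ j x, enc g j x ∧ z = key g j x
      · obtain ⟨j, x, he, rfl⟩ := h2
        have hd : (key g j x).head? ≠ some false := by
          unfold key
          simp
        rw [hput2 _ hd]
        have hlev := hk j x he hzT
        have h3 : F j x O ↔ F j x O' := by
          apply hF
          intro w hw
          have h4 : w.length < (key g j x).length := lt_of_le_of_lt hw he.1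
          have h5 := ih w.length (by omega) w rfl (by omega)
          rw [h5, hput w (by omega)]
        have h5 : O' (key g j x) = true ↔ O (key g j x) = true := by
          rw [hO.2.1 j x he, hO'.2.1 j x he, h3]
        exact Bool.eq_iff_iff.2 h5
      · push Not at h1 h2
        have hd : z.head? ≠ some false := by
          intro h
          cases z with
          | nil => simp at h
          | cons b t =>
            simp only [List.head?_cons, Option.some.injEq] at h
            exact h1 t (by rw [h])
        rw [hput2 z hd, hO.2.2 z h2 h1, hO'.2.2 z h2 h1]
  intro z hz
  exact key1 z.length z rfl hz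

end Pool.Agent.H10.ALG
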