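import Pool.Agent.H10.ALG.Asm
import Pool.Agent.H10.ALG.UNI
import Pool.Agent.H10.ALG.LIM
import Pool.Agent.H10.ALG.KIN
import Pool.Agent.H10.ALG.LNG
import Pool.Agent.H10.ALG.TRE
import Pool.Agent.H75.ALG.AMN
import Pool.Agent.H75.ALG.ENT
import Pool.Agent.H75.ALG.CRX
import Pool.Agent.H26.ALG.COB
import Pool.Agent.H9.ALG.COR
import Pool.Agent.H9.ALG.VAL
import Pool.Agent.H9.ALG.NUM
import Pool.Agent.H61.ALG.FIN
import Pool.Agent.H8.ALG.KEY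
import Pool.Agent.H8.ALG.STG
import Pool.Agent.H50.ALG.MUP
import Pool.Agent.H39.ALG.SMP
import Pool.Agent.H39.ALG.CEN
import Pool.Agent.H11.ALG.AMS
import Pool.Agent.H21.ALG.COE

/-!
# MP_64fb07_lc: assembly of the board `alg_modules`
-/

set_option autoImplicit false

namespace Pool.Agent.H10.ALG

theorem x_MUP : T_MUP := Pool.Agent.H50.ALG.pf_MUP
theorem x_SMP : T_SMP := Pool.Agent.H39.ALG.pf_SMP
theorem x_COB : T_COB := Pool.Agent.H26.ALG.pf_COB Pool.Agent.H75.ALG.pf_ENT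
theorem x_COR : T_COR := Pool.Agent.H9.ALG.pf_COR x_COB
theorem x_CRX : T_CRX := Pool.Agent.H75.ALG.pf_CRX x_COR x_MUP
theorem x_AMS : T_AMS := Pool.Agent.H11.ALG.pf_AMS x_SMP
theorem x_COE : T_COE :=
  Pool.Agent.H21.ALG.pf_COE x_SMP x_CRX Pool.Agent.H75.ALG.pf_AMN x_AMS x_MUP
theorem x_TRE : T_TRE := pf_TRE Pool.Agent.H9.ALG.pf_VAL x_SMP
theorem x_FIN : T_FIN := Pool.Agent.H61.ALG.pf_FIN x_COE Pool.Agent.H9.ALG.pf_NUM x_TRE x_SMP pf_LNG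
theorem x_ORC : T_ORC := pf_ORC pf_KIN
theorem x_STG : T_STG :=
  Pool.Agent.H8.ALG.pf_STG x_FIN Pool.Agent.H8.ALG.pf_KEY x_ORC pf_PUT pf_LNG pf_AGR
theorem x_RES : T_RES := a_RES Pool.Agent.H8.ALG.pf_KEY x_ORC x_STG pf_LIM
theorem x_CEN : T_CEN := Pool.Agent.H39.ALG.pf_CEN

end Pool.Agent.H10.ALG
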