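import Pool.Agent.H10.ALG.Targets

/-!
# MP_64fb07_lc: assembly of the board `alg_modules`
-/

set_option autoImplicit false

namespace Pool.Agent.H10.ALG

open Filter

theorem wit_iff {g : ℕ → ℕ} {F : ℕ → List Bool → Orc → Prop} {C : List Bool → Bool} {O : Orc}
    (h : IsOrc g F C O) (x y : List Bool) :
    Wit O x y ↔ y.length = 2 ^ x.length ∧ C (false :: (x ++ y)) = true ∧
      C (true :: (x ++ y)) = true := by
  unfold Wit
  rw [h.1, h.1]

theorem a_RES (hKEY : T_KEY) (hORC : T_ORC) (hSTG : T_STG) (hLIM : T_LIM) : T_RES := by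
  intro g hg F hF M hM
  obtain ⟨C, hUC, hC⟩ := hLIM (fun j n C => Fail g F (M j) j n C) cost
    (fun j n => by
      unfold cost
      calc n < 2 ^ n := Nat.lt_two_pow_self
        _ ≤ 2 ^ ((j + 2) * (n + 1)) := Nat.pow_le_pow_right (by norm_num) (by nlinarith))
    (fun j N C h1 h2 => hSTG g F hg hF j (M j) (hM j) N C h1 h2)
  obtain ⟨O, hO⟩ := hORC g F hF C
  refine ⟨O, ?_, ?_, ?_⟩
  · intro j
    refine ((hKEY g hg).2 j).mono ?_
    intro n hn x hx
    exact hO.2.1 j x (hn x hx)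
  · intro x y y' h1 h2
    rw [wit_iff hO] at h1 h2
    exact hUC x y y' h1.1 h2.1 h1.2.1 h1.2.2 h2.2.1 h2.2.2
  · intro j
    refine (hC j).mono ?_
    intro n hn
    exact hn O hO

end Pool.Agent.H10.ALG
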