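import Pool.Agent.H10.ALG.Targets

/-!
# MP_64fb07_lc: an oracle with a complete collapse

The keys have length `2 ^ O(n)`, just above the reach of the predicates: every predicate which depends
on the strings of length at most `cost j |x|` of the oracle is decided by one question about a string of
length at most `cost (j + 1) |x|`.
-/

set_option autoImplicit false

namespace Pool.Agent.H10.ALG

open Filter

/-- the short key of the predicate number `j` at the string `x`, a string of length
`cost j n + j + n + 2`, `n` the length of `x` -/
def skey (j : ℕ) (x : List Bool) : List Bool :=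
  List.replicate (cost j x.length) true ++ (false :: (List.replicate j true ++ (false :: x)))

theorem length_skey (j : ℕ) (x : List Bool) :
    (skey j x).length = cost j x.length + j + x.length + 2 := by
  unfold skey
  simp only [List.length_append, List.length_replicate, List.length_cons]
  omega

theorem rep_cancel2 (m n : ℕ) (u v : List Bool)
    (h : List.replicate m true ++ (false :: u) = List.replicate n true ++ (false :: v)) :
    m = n ∧ u = v := by
  induction m generalizing n with
  | zero =>
    cases n with
    | zero => simpa using h
    | succ n => simp [List.replicate_succ] at h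
  | succ m ih =>
    cases n with
    | zero => simp [List.replicate_succ] at h
    | succ n =>
      have h' : List.replicate m true ++ (false :: u) = List.replicate n true ++ (false :: v) := by
        simpa [List.replicate_succ] using h
      obtain ⟨h1, h2⟩ := ih n h'
      exact ⟨by rw [h1], h2⟩

theorem skey_inj {j j' : ℕ} {x x' : List Bool} (h : skey j x = skey j' x') : j = j' ∧ x = x' := by
  unfold skey at h
  obtain ⟨_, h2⟩ := rep_cancel2 _ _ _ _ h
  exact rep_cancel2 _ _ _ _ h2

/-- Full collapse: one question of length `cost j n + j + n + 2` decides the predicate number `j`. -/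
theorem pf_DET (F : ℕ → List Bool → Orc → Prop) (hF : Loc F) :
    ∃ O : Orc, ∀ j x, (O (skey j x) = true ↔ F j x O) := by
  classical
  -- approximations
  let Os : ℕ → Orc := fun n => Nat.rec (fun _ => false)
    (fun n A z => if z.length ≤ n then A z else
      decide (z.length = n + 1 ∧ ∃ j x, z = skey j x ∧ F j x A)) n
  have hs : ∀ n z, Os (n + 1) z = if z.length ≤ n then Os n z else
      decide (z.length = n + 1 ∧ ∃ j x, z = skey j x ∧ F j x (Os n)) := fun _ _ => rfl
  have hst : ∀ (k n : ℕ) (z : List Bool), z.length ≤ n → Os (n + k) z = Os n z := by
    intro k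
    induction k with
    | zero => intro n z _; rfl
    | succ k ih =>
      intro n z hz
      rw [show n + (k + 1) = (n + k) + 1 from rfl, hs, if_pos (by omega), ih n z hz]
  have hst' : ∀ (n m : ℕ) (z : List Bool), z.length ≤ n → n ≤ m → Os m z = Os n z := by
    intro n m z hz hm
    obtain ⟨k, rfl⟩ := Nat.exists_eq_add_of_le hm
    exact hst k n z hz
  refine ⟨fun z => Os z.length z, ?_⟩
  intro j x
  have hA : ∀ n, Agr n (Os n) (fun z => Os z.length z) := by
    intro n z hz
    exact hst' z.length n z le_rfl hz
  obtain ⟨m, hm⟩ : ∃ m, (skey j x).length = m + 1 :=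
    ⟨cost j x.length + j + x.length + 1, by rw [length_skey]⟩
  have hF' : F j x (Os m) ↔ F j x (fun z => Os z.length z) := by
    refine hF j x _ _ ?_
    intro z hz
    exact hA m z (by rw [length_skey] at hm; omega)
  show Os (skey j x).length (skey j x) = true ↔ _
  rw [hm, hs, if_neg (by omega), decide_eq_true_iff, ← hF']
  constructor
  · rintro ⟨_, j', x', h1, h2⟩
    obtain ⟨rfl, rfl⟩ := skey_inj h1
    exact h2
  · intro h
    exact ⟨hm, j, x, rfl, h⟩

end Pool.Agent.H10.ALG
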