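import Mathlib

/-!
# MP_64fb07_lc: NE and coNE relative to an oracle and its algebraic extensions (board `alg_modules`)

Oracles, questions (values of additive functionals of the oracle), decision trees, Merlin-Arthur
machines, the test language, the keys.
-/

set_option autoImplicit false

namespace Pool.Agent.H10.ALG

/-- an oracle: a set of strings -/
abbrev Orc : Type := List Bool → Bool

/-- A question to the oracle: the value of an additive functional of its strings of length `len`,
in a finite commutative group `G`. For point questions `G = ZMod 2`; the value of the multilinear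
(or any other linear) extension of the oracle over a finite field at a point is such a question. -/
structure Qn : Type 1 where
  /-- the group -/
  G : Type
  /-- its structure -/
  grp : AddCommGroup G
  /-- it is finite -/
  fin : Fintype G
  /-- length of the strings -/
  len : ℕ
  /-- coefficients -/
  c : List Bool → G

attribute [instance] Qn.grp Qn.fin

/-- the answer: the sum of the coefficients of the strings of length `len` in the oracle -/
def Qn.val (q : Qn) (O : Orc) : q.G :=
  ∑ z : Fin q.len → Bool, if O (List.ofFn z) = true then q.c (List.ofFn z) else 0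

/-- adaptive computations (decision trees) -/
inductive Tree : Type 1
  | leaf (b : Bool) : Tree
  | node (q : Qn) (next : q.G → Tree) : Tree

/-- result of a computation -/
def Tree.out (O : Orc) : Tree → Bool
  | Tree.leaf b => b
  | Tree.node q next => (next (q.val O)).out O

theorem Tree.out_leaf (O : Orc) (b : Bool) : (Tree.leaf b).out O = b := by rw [Tree.out]

theorem Tree.out_node (O : Orc) (q : Qn) (next : q.G → Tree) :
    (Tree.node q next).out O = (next (q.val O)).out O := by rw [Tree.out]

/-- at most `d` questions on every branch, all about strings of length at most `T` and with values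
in a group of order at most `2 ^ T` -/
def Tree.Bd (T : ℕ) : ℕ → Tree → Prop
  | _, Tree.leaf _ => True
  | 0, Tree.node _ _ => False
  | d + 1, Tree.node q next => q.len ≤ T ∧ Fintype.card q.G ≤ 2 ^ T ∧ ∀ v, Tree.Bd T d (next v)

theorem Tree.Bd_leaf (T d : ℕ) (b : Bool) : Tree.Bd T d (Tree.leaf b) := by
  cases d <;> simp only [Tree.Bd]

theorem Tree.Bd_zero (T : ℕ) (q : Qn) (next : q.G → Tree) :
    ¬ Tree.Bd T 0 (Tree.node q next) := by
  simp only [Tree.Bd, not_false_eq_true]

theorem Tree.Bd_succ (T d : ℕ) (q : Qn) (next : q.G → Tree) :
    Tree.Bd T (d + 1) (Tree.node q next) ↔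
      q.len ≤ T ∧ Fintype.card q.G ≤ 2 ^ T ∧ ∀ v, Tree.Bd T d (next v) := by
  simp only [Tree.Bd]

/-- a machine: advice (a number), input, message of Merlin, coins of Arthur -/
abbrev Mac : Type 1 := ℕ → List Bool → List Bool → List Bool → Tree

/-- the bound `2 ^ ((j + 2) (n + 1))` -/
def cost (j n : ℕ) : ℕ := 2 ^ ((j + 2) * (n + 1))

/-- number of the coin sequences of length `T` with which the machine accepts -/
def accs (V : Mac) (O : Orc) (T a : ℕ) (x w : List Bool) : ℕ :=
  (Finset.univ.filter fun r : Fin T → Bool => (V a x w (List.ofFn r)).out O = true).card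

/-- With advice `a`, the Merlin-Arthur machine `V` with messages and coins of length `T` decides
the set `L` for the inputs of length `n`: if `x` is in `L`, then some message is accepted with
probability at least `2 / 3`; if `x` is not in `L`, then every message is accepted with probability
at most `1 / 3`. -/
def Decides (V : Mac) (O : Orc) (T a n : ℕ) (L : List Bool → Prop) : Prop :=
  ∀ x : List Bool, x.length = n →
    (L x → ∃ w : Fin T → Bool, 2 * 2 ^ T ≤ 3 * accs V O T a x (List.ofFn w)) ∧
    (¬ L x → ∀ w : Fin T → Bool, 3 * accs V O T a x (List.ofFn w) ≤ 2 ^ T)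

/-- `y` is a witness for `x` -/
def Wit (O : Orc) (x y : List Bool) : Prop :=
  y.length = 2 ^ x.length ∧ O (false :: false :: (x ++ y)) = true ∧
    O (false :: true :: (x ++ y)) = true

/-- the language: strings with a witness -/
def lang (O : Orc) (x : List Bool) : Prop := ∃ y, Wit O x y

/-- every string has at most one witness -/
def Unam (O : Orc) : Prop := ∀ x y y', Wit O x y → Wit O x y' → y = y'

/-- the key of the predicate number `j` at the string `x`, a string of length
`2 ^ (n g(n)) + j + n + 3`, `n` the length of `x` -/
def key (g : ℕ → ℕ) (j : ℕ) (x : List Bool) : List Bool :=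
  true :: (List.replicate (2 ^ (x.length * g x.length)) true ++
    (false :: (List.replicate j true ++ (false :: x))))

/-! ### Blocks -/

section Blocks

/-- a block: two sets of witnesses -/
abbrev Blk (B : Type) : Type := Finset B × Finset B

variable {B : Type} [Fintype B] [DecidableEq B]

/-- random disjoint sets -/
noncomputable def mu0 (p : Blk B) : ℝ :=
  (1 / 4 : ℝ) ^ Fintype.card B *
    ((Finset.univ.filter fun D : Finset B => p.1 ⊆ D ∧ Disjoint p.2 D).card : ℝ)

/-- random sets with exactly one common element -/
noncomputable def mu1 (p : Blk B) : ℝ :=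
  4 / (Fintype.card B : ℝ) * (1 / 4 : ℝ) ^ Fintype.card B *
    ∑ i : B, ((Finset.univ.filter fun D : Finset B =>
      i ∉ D ∧ i ∈ p.1 ∧ p.1 ⊆ insert i D ∧ i ∈ p.2 ∧ Disjoint p.2 D).card : ℝ)

variable {X : Type} [Fintype X] [DecidableEq X]

/-- a configuration: a block for each input -/
abbrev Cf (X B : Type) : Type := X → Blk B

/-- independent blocks, with a common element exactly for the inputs in `J` -/
noncomputable def muJ (J : Finset X) (S : Cf X B) : ℝ :=
  ∏ x, if x ∈ J then mu1 (S x) else mu0 (S x)

/-- expectation -/
noncomputable def Ex (J : Finset X) (f : Cf X B → ℝ) : ℝ := ∑ S, muJ J S * f S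

open Classical in
/-- `f` is a combination of rectangles with nonnegative coefficients of sum at most `N` -/
def Simp (N : ℝ) (f : Cf X B → ℝ) : Prop :=
  ∃ (ι : Type) (_ : Fintype ι) (w : ι → ℝ) (P Q : ι → (X → Finset B) → Prop),
    (∀ t, 0 ≤ w t) ∧ ∑ t, w t ≤ N ∧
    ∀ S, f S = ∑ t, w t * (if P t (fun x => (S x).1) ∧ Q t (fun x => (S x).2) then 1 else 0)

end Blocks

/-- probability of at least `m / 2` successes in `m` independent trials -/
noncomputable def amp (m : ℕ) (p : ℝ) : ℝ :=
  ∑ G ∈ (Finset.range m).powerset, if m ≤ 2 * G.card then p ^ G.card * (1 - p) ^ (m - G.card) else 0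

/-! ### Levels of the oracle -/

/-- inputs of length `n` -/
abbrev In (n : ℕ) : Type := Fin n → Bool

/-- witnesses for the inputs of length `n` -/
abbrev Wi (n : ℕ) : Type := Fin (2 ^ n) → Bool

/-- length of the strings of level `n` -/
def lev (n : ℕ) : ℕ := n + 2 ^ n + 2

open Classical in
/-- the strings of level `n` determined by the configuration `S` -/
noncomputable def blkv {n : ℕ} (S : Cf (In n) (Wi n)) (z : List Bool) : Bool :=
  decide (∃ (x : In n) (y : Wi n),
    (z = false :: (List.ofFn x ++ List.ofFn y) ∧ y ∈ (S x).1) ∨
    (z = true :: (List.ofFn x ++ List.ofFn y) ∧ y ∈ (S x).2))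

/-- the oracle `O`, with the level `n` replaced -/
noncomputable def put (n : ℕ) (O : Orc) (S : Cf (In n) (Wi n)) : Orc := fun z =>
  if z.length = lev n ∧ z.head? = some false then blkv S z.tail else O z

/-- the pairs `(j, x)` which are encoded -/
def enc (g : ℕ → ℕ) (j : ℕ) (x : List Bool) : Prop :=
  cost j x.length < (key g j x).length ∧ (j + 2) * (j + 2) ≤ g x.length

/-- `O` is the oracle with the content `C` (values at the strings which start with `false`), whose
keys contain the answers `F` -/
def IsOrc (g : ℕ → ℕ) (F : ℕ → List Bool → Orc → Prop) (C : List Bool → Bool) (O : Orc) : Prop :=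
  (∀ z, O (false :: z) = C z) ∧ (∀ j x, enc g j x → (O (key g j x) = true ↔ F j x O)) ∧
  (∀ z, (∀ j x, enc g j x → z ≠ key g j x) → (∀ z', z ≠ false :: z') → O z = false)

/-- two oracles agree on the strings of length at most `T` -/
def Agr (T : ℕ) (O O' : Orc) : Prop := ∀ z : List Bool, z.length ≤ T → O z = O' z

end Pool.Agent.H10.ALG
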