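import Pool.Agent.H10.ALG.Defs

/-!
# MP_64fb07_lc: targets of the board `alg_modules`
-/

set_option autoImplicit false

namespace Pool.Agent.H10.ALG

open Filter

/-! ### One block -/

/-- MUP: properties of the two distributions -/
def T_MUP : Prop := ∀ (B : Type) [Fintype B] [DecidableEq B] [Nonempty B],
  (∀ p : Blk B, 0 ≤ mu0 p) ∧ (∀ p : Blk B, 0 ≤ mu1 p) ∧ ∑ p : Blk B, mu0 p = 1 ∧
  ∑ p : Blk B, mu1 p = 1 ∧ (∀ p : Blk B, mu0 p ≠ 0 → Disjoint p.1 p.2) ∧
  ∀ p : Blk B, mu1 p ≠ 0 → (p.1 ∩ p.2).card = 1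

/-- ENT: a large family of subsets of `D` is biased for few elements only -/
def T_ENT : Prop := ∀ (B : Type) [DecidableEq B] (D : Finset B) (A : Finset (Finset B)) (T : ℕ),
  (∀ a ∈ A, a ⊆ D) → 2 ^ D.card ≤ 2 ^ T * A.card →
  (D.filter fun i => 10 * (A.filter fun a => i ∈ a).card < A.card).card ≤ 5 * T + 5 ∧
  (D.filter fun i => 10 * (A.filter fun a => i ∉ a).card < A.card).card ≤ 5 * T + 5

/-- number of the members contained in `D` -/
def inn {B : Type} [DecidableEq B] (A : Finset (Finset B)) (D : Finset B) : ℕ :=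
  (A.filter fun a => a ⊆ D).card

/-- number of the members disjoint from `D` -/
def dsj {B : Type} [DecidableEq B] (A : Finset (Finset B)) (D : Finset B) : ℕ :=
  (A.filter fun a => Disjoint a D).card

/-- COB: bad edges of the cube -/
def T_COB : Prop := ∀ (B : Type) [Fintype B] [DecidableEq B] (A A' : Finset (Finset B)) (T : ℕ),
  (∑ D : Finset B, inn A D * dsj A' D *
    (D.filter fun i => 10 * inn A (D.erase i) < inn A D ∨
      10 * (inn A D - inn A (D.erase i)) < inn A D).card : ℝ) ≤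
    10 * (T + 1) * (∑ D : Finset B, inn A D * dsj A' D : ℝ) +
      (Fintype.card B : ℝ) * 4 ^ Fintype.card B * (1 / 2) ^ T ∧
  (∑ D : Finset B, inn A D * dsj A' D *
    (Dᶜ.filter fun i => 10 * dsj A' (insert i D) < dsj A' D ∨
      10 * (dsj A' D - dsj A' (insert i D)) < dsj A' D).card : ℝ) ≤
    10 * (T + 1) * (∑ D : Finset B, inn A D * dsj A' D : ℝ) +
      (Fintype.card B : ℝ) * 4 ^ Fintype.card B * (1 / 2) ^ T

/-- COR: corruption -/
def T_COR : Prop := ∀ (B : Type) [Fintype B] [DecidableEq B] [Nonempty B]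
  (A A' : Finset (Finset B)) (T : ℕ), 440 * (T + 1) ≤ Fintype.card B →
  (∑ p ∈ A ×ˢ A', mu0 p) / 100 - (1 / 2) ^ T ≤ ∑ p ∈ A ×ˢ A', mu1 p

/-! ### Combinations of rectangles -/

/-- SMP: operations -/
def T_SMP : Prop := ∀ (X B : Type) [Fintype X] [DecidableEq X] [Fintype B] [DecidableEq B],
  Simp (X := X) (B := B) 1 (fun _ => 1) ∧ Simp (X := X) (B := B) 0 (fun _ => 0) ∧
  (∀ P Q : (X → Finset B) → Prop, ∀ f : Cf X B → ℝ,
    (∀ S, (P (fun x => (S x).1) ∧ Q (fun x => (S x).2) → f S = 1) ∧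
      (¬ (P (fun x => (S x).1) ∧ Q (fun x => (S x).2)) → f S = 0)) → Simp 1 f) ∧
  (∀ (N M : ℝ) (f h : Cf X B → ℝ), Simp N f → Simp M h → Simp (N + M) (fun S => f S + h S)) ∧
  (∀ (N M : ℝ) (f h : Cf X B → ℝ), Simp N f → Simp M h → Simp (N * M) (fun S => f S * h S)) ∧
  (∀ (c N : ℝ) (f : Cf X B → ℝ), 0 ≤ c → Simp N f → Simp (c * N) (fun S => c * f S)) ∧
  (∀ (ι : Type) (s : Finset ι) (N : ι → ℝ) (f : ι → Cf X B → ℝ), (∀ i ∈ s, Simp (N i) (f i)) →
    Simp (∑ i ∈ s, N i) (fun S => ∑ i ∈ s, f i S)) ∧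
  (∀ (N M : ℝ) (f : Cf X B → ℝ), N ≤ M → Simp N f → Simp M f) ∧
  (∀ (N : ℝ) (f : Cf X B → ℝ), Simp N f → 0 ≤ N ∧ ∀ S, 0 ≤ f S)

/-- CRX: corruption in the block `x` -/
def T_CRX : Prop := ∀ (X B : Type) [Fintype X] [DecidableEq X] [Fintype B] [DecidableEq B]
  [Nonempty B] (N : ℝ) (f : Cf X B → ℝ) (J : Finset X) (x : X) (T : ℕ), Simp N f → x ∉ J →
  440 * (T + 1) ≤ Fintype.card B →
  Ex J f / 100 - N * (1 / 2) ^ T ≤ Ex (insert x J) f

/-- AMN: amplification, numbers -/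
def T_AMN : Prop := (∀ (m : ℕ) (p : ℝ), 0 ≤ p → p ≤ 1 → 0 ≤ amp m p ∧ amp m p ≤ 1) ∧
  (∀ (K : ℕ) (p : ℝ), 0 ≤ p → p ≤ 1 / 3 → amp (12 * K) p ≤ (1 / 2) ^ K) ∧
  ∀ (K : ℕ) (p : ℝ), 1 ≤ K → 2 / 3 ≤ p → p ≤ 1 → 1 / 2 ≤ amp (12 * K) p

/-- AMS: amplification, rectangles -/
def T_AMS : Prop := ∀ (X B : Type) [Fintype X] [DecidableEq X] [Fintype B] [DecidableEq B]
  (N : ℝ) (f : Cf X B → ℝ) (m : ℕ), Simp N f → Simp N (fun S => 1 - f S) →
  Simp ((2 * N) ^ m) (fun S => amp m (f S))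

/-- COE: the finite theorem -/
def T_COE : Prop := ∀ (X B W : Type) [Fintype X] [DecidableEq X] [Fintype B] [DecidableEq B]
  [Nonempty B] [Fintype W] [Nonempty W] (p : X → W → Cf X B → ℝ) (H L : ℕ),
  (∀ x w S, 0 ≤ p x w S ∧ p x w S ≤ 1) →
  (∀ x w, Simp (2 ^ H) (p x w) ∧ Simp (2 ^ H) (fun S => 1 - p x w S)) →
  800 * Fintype.card X * Fintype.card W ≤ 2 ^ L →
  440 * ((1 + H) * (12 * (Fintype.card X * L + 1)) * Fintype.card X + Fintype.card X * L + 1) ≤
    Fintype.card B →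
  ∃ S : Cf X B, (∀ x, Disjoint (S x).1 (S x).2 ∨ ((S x).1 ∩ (S x).2).card = 1) ∧
    ∀ x, (Disjoint (S x).1 (S x).2 → ∀ w, p x w S < 2 / 3) ∧
      (¬ Disjoint (S x).1 (S x).2 → ∃ w, 1 / 3 < p x w S)

/-! ### One level of the oracle -/

/-- all blocks are disjoint or have exactly one common element -/
def Dj {X B : Type} [DecidableEq B] (S : Cf X B) : Prop :=
  ∀ x, Disjoint (S x).1 (S x).2 ∨ ((S x).1 ∩ (S x).2).card = 1

/-- VAL: the answer is the sum of the contributions of the two halves -/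
def T_VAL : Prop := ∀ (n : ℕ) (O : Orc) (q : Qn), ∃ a b : (In n → Finset (Wi n)) → q.G,
  ∀ S : Cf (In n) (Wi n), q.val (put n O S) = a (fun x => (S x).1) + b (fun x => (S x).2)

/-- TRE: a decision tree is a combination of rectangles -/
def T_TRE : Prop := ∀ (n T d : ℕ) (O : Orc) (t : Tree), t.Bd T d →
  Simp (2 ^ (2 * T * d)) (fun S : Cf (In n) (Wi n) => if t.out (put n O S) = true then 1 else 0) ∧
  Simp (2 ^ (2 * T * d)) (fun S : Cf (In n) (Wi n) => if t.out (put n O S) = true then 0 else 1)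

/-- LNG: the language at the level `n` -/
def T_LNG : Prop := ∀ (n : ℕ) (O : Orc) (S : Cf (In n) (Wi n)) (x : In n),
  (lang (put n O S) (List.ofFn x) ↔ ¬ Disjoint (S x).1 (S x).2) ∧
  (Dj S → ∀ y y', Wit (put n O S) (List.ofFn x) y → Wit (put n O S) (List.ofFn x) y' → y = y')

/-- NUM: numbers -/
def T_NUM : Prop := ∀ j : ℕ, ∀ᶠ n : ℕ in atTop,
  440 * ((1 + 2 * cost j n * cost j n) * (12 * (2 ^ n * (10 + n + cost j n) + 1)) * 2 ^ n +
    2 ^ n * (10 + n + cost j n) + 1) ≤ 2 ^ 2 ^ n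

/-- the machine `V` has the cost `cost j n` for the inputs of length `n` -/
def MBd (V : Mac) (j n : ℕ) : Prop :=
  ∀ (a : ℕ) (x w r : List Bool), x.length = n → (V a x w r).Bd (cost j n) (cost j n)

/-- FIN: the theorem for one level -/
def T_FIN : Prop := ∀ j : ℕ, ∀ᶠ n : ℕ in atTop, ∀ (O : Orc) (V : Mac), MBd V j n →
  ∃ S : Cf (In n) (Wi n), Dj S ∧ ∀ a < 2 ^ n,
    ¬ Decides V (put n O S) (cost j n) a n (fun x => ¬ lang (put n O S) x)

/-! ### Oracles -/

/-- the predicates `F j` are local -/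
def Loc (F : ℕ → List Bool → Orc → Prop) : Prop :=
  ∀ j x O O', Agr (cost j x.length) O O' → (F j x O ↔ F j x O')

/-- AGR: a computation depends on the short strings of the oracle only; so do the language and the
machines -/
def T_AGR : Prop := (∀ (T d : ℕ) (O O' : Orc) (t : Tree), t.Bd T d → Agr T O O' →
    t.out O = t.out O') ∧
  (∀ (n : ℕ) (O O' : Orc), (∀ z : List Bool, z.length = lev n → O z = O' z) →
    ∀ x : List Bool, x.length = n → (lang O x ↔ lang O' x)) ∧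
  (∀ j n, lev n ≤ cost j n) ∧
  ∀ (V : Mac) (j n : ℕ) (O O' : Orc), MBd V j n → Agr (cost j n) O O' → ∀ a,
    Decides V O (cost j n) a n (fun x => ¬ lang O x) →
    Decides V O' (cost j n) a n (fun x => ¬ lang O' x)

/-- ORC: existence of the oracle with a given content -/
def T_ORC : Prop := ∀ (g : ℕ → ℕ) (F : ℕ → List Bool → Orc → Prop), Loc F →
  ∀ C : List Bool → Bool, ∃ O : Orc, IsOrc g F C O

/-- UNI: the oracle depends locally on the content -/
def T_UNI : Prop := ∀ (g : ℕ → ℕ) (F : ℕ → List Bool → Orc → Prop), Loc F →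
  ∀ (C C' : List Bool → Bool) (O O' : Orc) (T : ℕ), IsOrc g F C O → IsOrc g F C' O' →
  (∀ z : List Bool, z.length + 1 ≤ T → C z = C' z) → Agr T O O'

/-- PUT: replacing the level `n` of the content -/
def T_PUT : Prop := ∀ (g : ℕ → ℕ) (F : ℕ → List Bool → Orc → Prop), Loc F → ∀ n T : ℕ,
  (∀ j x, enc g j x → (key g j x).length ≤ T → cost j x.length < lev n) →
  ∀ (C C' : List Bool → Bool) (O O' : Orc) (S : Cf (In n) (Wi n)), IsOrc g F C O →
  IsOrc g F C' O' →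
  (∀ z : List Bool, z.length + 1 ≤ T → z.length + 1 ≠ lev n → C' z = C z) →
  (∀ z : List Bool, z.length + 1 = lev n → C' z = blkv S z) → Agr T O' (put n O S)

/-- KIN: the keys are different -/
def T_KIN : Prop := ∀ (g : ℕ → ℕ) (j j' : ℕ) (x x' : List Bool), key g j x = key g j' x' →
  j = j' ∧ x = x'

/-- KEY: the keys which depend on the level `n` are long; all but finitely many strings are
encoded -/
def T_KEY : Prop := ∀ g : ℕ → ℕ, Tendsto g atTop atTop →
  (∀ j0 : ℕ, ∀ᶠ n : ℕ in atTop, ∀ j x, enc g j x → (key g j x).length ≤ cost j0 n →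
    cost j x.length < lev n) ∧
  ∀ j : ℕ, ∀ᶠ n : ℕ in atTop, ∀ x : List Bool, x.length = n → enc g j x

/-- the content has at most one witness for every string -/
def UC (C : List Bool → Bool) : Prop := ∀ x y y' : List Bool, y.length = 2 ^ x.length →
  y'.length = 2 ^ x.length → C (false :: (x ++ y)) = true → C (true :: (x ++ y)) = true →
  C (false :: (x ++ y')) = true → C (true :: (x ++ y')) = true → y = y'

/-- the machine `V` fails at the length `n` with all advice, for the oracle with content `C` -/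
def Fail (g : ℕ → ℕ) (F : ℕ → List Bool → Orc → Prop) (V : Mac) (j n : ℕ) (C : List Bool → Bool) :
    Prop := ∀ O : Orc, IsOrc g F C O → ∀ a < 2 ^ n,
  ¬ Decides V O (cost j n) a n (fun x => ¬ lang O x)

/-- STG: one stage of the construction -/
def T_STG : Prop := ∀ (g : ℕ → ℕ) (F : ℕ → List Bool → Orc → Prop), Tendsto g atTop atTop →
  Loc F → ∀ (j : ℕ) (V : Mac), (∀ n, MBd V j n) → ∀ (N : ℕ) (C : List Bool → Bool),
  (∀ z : List Bool, N < z.length + 1 → C z = false) → UC C → ∃ (n : ℕ) (C' : List Bool → Bool),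
  N ≤ n ∧ (∀ z : List Bool, z.length + 1 ≤ N → C' z = C z) ∧
  (∀ z : List Bool, cost j n < z.length + 1 → C' z = false) ∧ UC C' ∧
  ∀ C'' : List Bool → Bool, (∀ z : List Bool, z.length + 1 ≤ cost j n → C'' z = C' z) →
    Fail g F V j n C''

/-- LIM: the limit of the stages -/
def T_LIM : Prop := ∀ (P : ℕ → ℕ → (List Bool → Bool) → Prop) (c : ℕ → ℕ → ℕ),
  (∀ j n, n < c j n) →
  (∀ (j N : ℕ) (C : List Bool → Bool), (∀ z : List Bool, N < z.length + 1 → C z = false) → UC C →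
    ∃ (n : ℕ) (C' : List Bool → Bool), N ≤ n ∧ (∀ z : List Bool, z.length + 1 ≤ N → C' z = C z) ∧
    (∀ z : List Bool, c j n < z.length + 1 → C' z = false) ∧ UC C' ∧
    ∀ C'' : List Bool → Bool, (∀ z : List Bool, z.length + 1 ≤ c j n → C'' z = C' z) →
      P j n C'') →
  ∃ C : List Bool → Bool, UC C ∧ ∀ j, ∃ᶠ n in atTop, P j n C

/-- CEN: census -/
def T_CEN : Prop := ∃ C : ℕ → List Bool → List Bool → Tree,
  (∀ a x w, (C a x w).Bd (cost 2 x.length) (cost 2 x.length)) ∧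
  ∀ (O : Orc) (n : ℕ), ∃ a ≤ 2 ^ n, ∀ x : List Bool, x.length = n →
    (¬ lang O x ↔ ∃ w : Fin (cost 2 n) → Bool, (C a x (List.ofFn w)).out O = true)

/-! ### The theorem -/

/-- RES: the result -/
def T_RES : Prop := ∀ (g : ℕ → ℕ), Tendsto g atTop atTop →
  ∀ F : ℕ → List Bool → Orc → Prop, Loc F →
  ∀ M : ℕ → Mac, (∀ j n, MBd (M j) j n) →
  ∃ O : Orc, (∀ j, ∀ᶠ n : ℕ in atTop, ∀ x : List Bool, x.length = n →
      (O (key g j x) = true ↔ F j x O)) ∧
    Unam O ∧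
    ∀ j, ∃ᶠ n in atTop, ∀ a < 2 ^ n,
      ¬ Decides (M j) O (cost j n) a n (fun x => ¬ lang O x)

end Pool.Agent.H10.ALG
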